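import Pool.Agent.Helper52K9.RR.Limit

/-!
The colouring: for the meet level `m` of the vertices `y < z` every program `e < m` receives a pair
of vertices below `m` which its approximation puts into the set; the two vertices of a pair get the
same colour.
-/

set_option autoImplicit false

open Filter
open Nat.Partrec (Code)
open Nat.Partrec.Code (evaln)

namespace Pool.Agent.Helper52K9.RR

/-- the first two different entries of a list -/
def pick (l : List ℕ) : Option (ℕ × ℕ) :=
  l.head?.bind fun a => (l.filter fun x => ¬ x = a).head?.map fun b => (a, b)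

/-- the vertices which are used already -/
def used (acc : List (ℕ × ℕ)) : List ℕ := acc.flatMap fun p => [p.1, p.2]

/-- the vertices of the approximation with code below `m` -/
def app (e m y z W : ℕ) : List ℕ :=
  ((List.range W).filter fun w => th e m y z w).map fun w => w.unpair.1

/-- the candidates -/
def cand (e m y z : ℕ) (acc : List (ℕ × ℕ)) : List ℕ :=
  (app e m y z m).filter fun x => ¬ x ∈ used acc

/-- one step -/
def step (m y z : ℕ) (acc : List (ℕ × ℕ)) (e : ℕ) : List (ℕ × ℕ) :=
  acc ++ (pick (cand e m y z acc)).toList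

/-- the pairs after `n` steps -/
def stage (m y z n : ℕ) : List (ℕ × ℕ) := (List.range n).foldl (step m y z) []

/-- the representative of `x` -/
def rep (m y z x : ℕ) : ℕ :=
  (((stage m y z m).filter fun p => p.1 = x ∨ p.2 = x).head?.map Prod.fst).getD x

/-- the colouring -/
def col (A : ℕ × ℕ → Bool) (t : ℕ × ℕ × ℕ) : ℕ :=
  Nat.pair (rep (mt A t.2.1 t.2.2) t.2.1 t.2.2 t.1) (Nat.pair t.2.1 t.2.2)

/-! ### picking -/

theorem pick_spec {l : List ℕ} {p : ℕ × ℕ} (h : pick l = some p) :
    p.1 ∈ l ∧ p.2 ∈ l ∧ p.1 ≠ p.2 := by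
  unfold pick at h
  rw [Option.bind_eq_some_iff] at h
  obtain ⟨a, ha, h⟩ := h
  rw [Option.map_eq_some_iff] at h
  obtain ⟨b, hb, rfl⟩ := h
  have h1 := List.mem_of_mem_head? ha
  have h2 := List.mem_of_mem_head? hb
  rw [List.mem_filter] at h2
  refine ⟨h1, h2.1, fun h => ?_⟩
  simp only [decide_not, Bool.not_eq_eq_eq_not, Bool.not_true, decide_eq_false_iff_not] at h2
  exact h2.2 h.symm

theorem pick_exists {l : List ℕ} {a b : ℕ} (ha : a ∈ l) (hb : b ∈ l) (hab : a ≠ b) :
    ∃ p, pick l = some p := by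
  cases l with
  | nil => simp at ha
  | cons c l =>
    have h : ∃ d ∈ c :: l, d ≠ c := by
      by_cases h : a = c
      · exact ⟨b, hb, fun h' => hab (h.trans h'.symm)⟩
      · exact ⟨a, ha, h⟩
    obtain ⟨d, hd, hdc⟩ := h
    have h1 : d ∈ (c :: l).filter (fun x => ¬ x = c) := by
      rw [List.mem_filter]
      exact ⟨hd, by simpa using hdc⟩
    unfold pick
    simp only [List.head?_cons, Option.bind_some]
    cases h2 : (c :: l).filter (fun x => ¬ x = c) with
    | nil => rw [h2] at h1; simp at h1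
    | cons f l' => exact ⟨(c, f), by simp⟩

theorem pick_append {l l' : List ℕ} {p : ℕ × ℕ} (h : pick l = some p) :
    pick (l ++ l') = some p := by
  unfold pick at h ⊢
  rw [Option.bind_eq_some_iff] at h ⊢
  obtain ⟨a, ha, h⟩ := h
  rw [Option.map_eq_some_iff] at h
  obtain ⟨b, hb, rfl⟩ := h
  refine ⟨a, ?_, ?_⟩
  · rw [List.head?_append, ha]; rfl
  · rw [List.filter_append, List.head?_append, hb]; rfl

/-! ### the stages -/

theorem stage_succ (m y z n : ℕ) : stage m y z (n + 1) = step m y z (stage m y z n) n := by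
  simp [stage, List.range_succ, List.foldl_append]

theorem used_append (l l' : List (ℕ × ℕ)) : used (l ++ l') = used l ++ used l' := by
  simp [used]

theorem mem_used {l : List (ℕ × ℕ)} {x : ℕ} : x ∈ used l ↔ ∃ p ∈ l, p.1 = x ∨ p.2 = x := by
  simp only [used, List.mem_flatMap, List.mem_cons, List.not_mem_nil, or_false]
  constructor
  · rintro ⟨p, hp, h⟩
    exact ⟨p, hp, h.imp Eq.symm Eq.symm⟩
  · rintro ⟨p, hp, h⟩
    exact ⟨p, hp, h.imp Eq.symm Eq.symm⟩

theorem used_toList (o : Option (ℕ × ℕ)) : (used o.toList).length ≤ 2 := by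
  cases o <;> simp [used]

theorem stage_nodup (m y z : ℕ) : ∀ n, (used (stage m y z n)).Nodup
  | 0 => by simp [stage, used]
  | n + 1 => by
    have ih := stage_nodup m y z n
    rw [stage_succ, step, used_append]
    cases h : pick (cand n m y z (stage m y z n)) with
    | none => simpa [used] using ih
    | some p =>
      obtain ⟨h1, h2, h3⟩ := pick_spec h
      have h1' : p.1 ∉ used (stage m y z n) := by
        have := (List.mem_filter.1 h1).2
        simpa using this
      have h2' : p.2 ∉ used (stage m y z n) := by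
        have := (List.mem_filter.1 h2).2
        simpa using this
      rw [List.nodup_append]
      refine ⟨ih, by simp [used, h3], ?_⟩
      intro a ha b hb hab
      subst hab
      simp only [used, Option.toList_some, List.flatMap_cons, List.flatMap_nil,
        List.append_nil, List.mem_cons, List.not_mem_nil, or_false] at hb
      rcases hb with rfl | rfl
      · exact h1' ha
      · exact h2' ha

theorem stage_length (m y z : ℕ) : ∀ n, (used (stage m y z n)).length ≤ 2 * n
  | 0 => by simp [stage, used]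
  | n + 1 => by
    have ih := stage_length m y z n
    rw [stage_succ, step, used_append, List.length_append]
    have := used_toList (pick (cand n m y z (stage m y z n)))
    omega

theorem stage_mono (m y z : ℕ) {n n' : ℕ} (h : n ≤ n') {p : ℕ × ℕ} (hp : p ∈ stage m y z n) :
    p ∈ stage m y z n' := by
  induction n', h using Nat.le_induction with
  | base => exact hp
  | succ k _ ih =>
    rw [stage_succ, step]
    exact List.mem_append_left _ ih

/-- two pairs of the final stage with a common vertex are equal -/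
theorem eq_of_common {l : List (ℕ × ℕ)} (h : (used l).Nodup) {p q : ℕ × ℕ} (hp : p ∈ l)
    (hq : q ∈ l) {x : ℕ} (h1 : p.1 = x ∨ p.2 = x) (h2 : q.1 = x ∨ q.2 = x) : p = q := by
  induction l with
  | nil => simp at hp
  | cons r l ih =>
    have hu : used (r :: l) = [r.1, r.2] ++ used l := by simp [used]
    rw [hu, List.nodup_append] at h
    obtain ⟨-, h3, h4⟩ := h
    rw [List.mem_cons] at hp hq
    rcases hp with rfl | hp <;> rcases hq with rfl | hq
    · rfl
    · exfalso
      refine h4 x ?_ x (mem_used.2 ⟨q, hq, h2⟩) rfl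
      simp only [List.mem_cons, List.not_mem_nil, or_false]
      exact h1.imp Eq.symm Eq.symm
    · exfalso
      refine h4 x ?_ x (mem_used.2 ⟨p, hp, h1⟩) rfl
      simp only [List.mem_cons, List.not_mem_nil, or_false]
      exact h2.imp Eq.symm Eq.symm
    · exact ih h3 hp hq

theorem rep_of_mem {m y z x : ℕ} {p : ℕ × ℕ} (hp : p ∈ stage m y z m)
    (hx : p.1 = x ∨ p.2 = x) : rep m y z x = p.1 := by
  unfold rep
  cases h : ((stage m y z m).filter fun p => p.1 = x ∨ p.2 = x) with
  | nil =>
    have : p ∈ ((stage m y z m).filter fun p => p.1 = x ∨ p.2 = x) := by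
      rw [List.mem_filter]
      exact ⟨hp, by simpa using hx⟩
    rw [h] at this
    simp at this
  | cons q l =>
    have hq : q ∈ ((stage m y z m).filter fun p => p.1 = x ∨ p.2 = x) := by rw [h]; simp
    rw [List.mem_filter] at hq
    have := eq_of_common (stage_nodup m y z m) hp hq.1 hx (by simpa using hq.2)
    simp [this]

theorem rep_of_not_mem {m y z x : ℕ} (hx : ∀ p ∈ stage m y z m, ¬ (p.1 = x ∨ p.2 = x)) :
    rep m y z x = x := by
  unfold rep
  have h : ((stage m y z m).filter fun p => p.1 = x ∨ p.2 = x) = [] := by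
    rw [List.filter_eq_nil_iff]
    intro p hp
    simpa using hx p hp
  rw [h]
  rfl

/-- at most two vertices have the same representative -/
theorem rep_bound (m y z r : ℕ) : ∃ u v, ∀ x, rep m y z x = r → x = u ∨ x = v := by
  by_cases h : ∃ p ∈ stage m y z m, p.1 = r
  · obtain ⟨p, hp, rfl⟩ := h
    refine ⟨p.1, p.2, fun x hx => ?_⟩
    by_cases h1 : ∃ q ∈ stage m y z m, q.1 = x ∨ q.2 = x
    · obtain ⟨q, hq, hqx⟩ := h1
      rw [rep_of_mem hq hqx] at hx
      have := eq_of_common (stage_nodup m y z m) hp hq (Or.inl rfl) (Or.inl hx)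
      subst this
      exact hqx.imp Eq.symm Eq.symm
    · push Not at h1
      rw [rep_of_not_mem fun q hq => by
        rw [not_or]; exact h1 q hq] at hx
      exact Or.inl hx
  · refine ⟨r, r, fun x hx => ?_⟩
    by_cases h1 : ∃ q ∈ stage m y z m, q.1 = x ∨ q.2 = x
    · obtain ⟨q, hq, hqx⟩ := h1
      rw [rep_of_mem hq hqx] at hx
      exact absurd ⟨q, hq, hx⟩ h
    · push Not at h1
      rw [rep_of_not_mem fun q hq => by
        rw [not_or]; exact h1 q hq] at hx
      exact Or.inl hx

theorem col_bound (A : ℕ × ℕ → Bool) (c : ℕ) : {t : ℕ × ℕ × ℕ | col A t = c}.encard ≤ 2 := by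
  obtain ⟨u, v, huv⟩ := rep_bound (mt A c.unpair.2.unpair.1 c.unpair.2.unpair.2)
    c.unpair.2.unpair.1 c.unpair.2.unpair.2 c.unpair.1
  have h : {t : ℕ × ℕ × ℕ | col A t = c} ⊆ {(u, c.unpair.2.unpair.1, c.unpair.2.unpair.2),
      (v, c.unpair.2.unpair.1, c.unpair.2.unpair.2)} := by
    rintro ⟨x, y, z⟩ ht
    simp only [Set.mem_ofPred_eq, col] at ht
    subst ht
    simp only [Nat.unpair_pair] at huv ⊢
    rcases huv x rfl with rfl | rfl
    · simp
    · simp
  calc {t : ℕ × ℕ × ℕ | col A t = c}.encard ≤ _ := Set.encard_le_encard h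
    _ ≤ 2 := by
      refine (Set.encard_insert_le _ _).trans ?_
      rw [Set.encard_singleton]
      norm_num

/-! ### the capture -/

theorem app_add (e m y z W k : ℕ) : ∃ l, app e m y z (W + k) = app e m y z W ++ l := by
  unfold app
  rw [List.range_add, List.filter_append, List.map_append]
  exact ⟨_, rfl⟩

theorem mem_app {e m y z W x : ℕ} :
    x ∈ app e m y z W ↔ ∃ w < W, th e m y z w ∧ w.unpair.1 = x := by
  simp [app, and_assoc]

theorem capture {P : ℕ × ℕ × ℕ × ℕ × ℕ → Prop} {X : Set ℕ}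
    (hXP : ∀ x, x ∈ X ↔ ∃ a, ∀ b, ∃ c, ∀ d, P (x, a, b, c, d)) (hinf : X.Infinite) (e : ℕ) :
    ∃ (W : ℕ) (D : Finset ℕ), (D : Set ℕ) ⊆ X ∧ ∀ m y z, W ≤ m → e < m →
      (∀ w < W, (th e m y z w ↔ TH P w)) →
      ∃ p ∈ stage m y z m, p.1 ∈ D ∧ p.2 ∈ D ∧ p.1 ≠ p.2 := by
  classical
  obtain ⟨S, hSX, hS⟩ := hinf.exists_subset_card_eq (2 * e + 2)
  have hex : ∀ x ∈ S, ∃ a, ∀ b, ∃ c, ∀ d, P (x, a, b, c, d) := fun x hx => (hXP x).1 (hSX hx)
  choose! a ha using hex
  refine ⟨(S.sup fun x => Nat.pair x (a x)) + 1,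
    ((Finset.range ((S.sup fun x => Nat.pair x (a x)) + 1)).filter fun w => TH P w).image
      fun w => w.unpair.1, ?_, ?_⟩
  · intro x hx
    simp only [Finset.coe_image, Finset.coe_filter, Finset.mem_range, Set.mem_image,
      Set.mem_ofPred_eq] at hx
    obtain ⟨w, ⟨-, hw⟩, rfl⟩ := hx
    exact (hXP _).2 ⟨w.unpair.2, hw⟩
  · set W := (S.sup fun x => Nat.pair x (a x)) + 1 with hW
    intro m y z hm he hth
    obtain ⟨k, rfl⟩ := Nat.exists_eq_add_of_le hm
    obtain ⟨l, hl⟩ := app_add e (W + k) y z W k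
    -- the good vertices
    have hcard : 2 ≤ (S \ (used (stage (W + k) y z e)).toFinset).card := by
      have h1 := Finset.le_card_sdiff (used (stage (W + k) y z e)).toFinset S
      have h2 := List.toFinset_card_le (used (stage (W + k) y z e))
      have h3 := stage_length (W + k) y z e
      omega
    obtain ⟨u, hu, v, hv, huv⟩ := Finset.one_lt_card.1 (by omega :
      1 < (S \ (used (stage (W + k) y z e)).toFinset).card)
    have hmem : ∀ x ∈ S \ (used (stage (W + k) y z e)).toFinset,
        x ∈ (app e (W + k) y z W).filter fun x => ¬ x ∈ used (stage (W + k) y z e) := by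
      intro x hx
      rw [Finset.mem_sdiff, List.mem_toFinset] at hx
      rw [List.mem_filter, mem_app]
      refine ⟨⟨Nat.pair x (a x), ?_, ?_, by simp⟩, by simpa using hx.2⟩
      · have := Finset.le_sup (f := fun x => Nat.pair x (a x)) hx.1
        omega
      · rw [hth]
        · simp only [TH, Nat.unpair_pair]
          exact ha x hx.1
        · have := Finset.le_sup (f := fun x => Nat.pair x (a x)) hx.1
          omega
    obtain ⟨p, hp⟩ := pick_exists (hmem u hu) (hmem v hv) huv
    have hp' : pick (cand e (W + k) y z (stage (W + k) y z e)) = some p := by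
      unfold cand
      rw [hl, List.filter_append]
      exact pick_append hp
    obtain ⟨h1, h2, h3⟩ := pick_spec hp
    have hD : ∀ x ∈ (app e (W + k) y z W).filter (fun x => ¬ x ∈ used (stage (W + k) y z e)),
        x ∈ ((Finset.range W).filter fun w => TH P w).image fun w => w.unpair.1 := by
      intro x hx
      rw [List.mem_filter, mem_app] at hx
      obtain ⟨⟨w, hw, hw1, hw2⟩, -⟩ := hx
      rw [Finset.mem_image]
      exact ⟨w, by rw [Finset.mem_filter, Finset.mem_range]; exact ⟨hw, (hth w hw).1 hw1⟩, hw2⟩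
    refine ⟨p, stage_mono _ _ _ (by omega : e + 1 ≤ W + k) ?_, hD _ h1, hD _ h2, h3⟩
    rw [stage_succ, step, hp']
    simp

/-! ### computability -/

theorem primrec_pick : Primrec pick := by
  unfold pick
  refine Primrec.option_bind Primrec.list_head? ?_
  have hR : PrimrecRel fun (x : ℕ) (a : ℕ) => ¬ x = a := PrimrecRel.not Primrec.eq
  have h1 : Primrec₂ fun (L : List ℕ) (a : ℕ) => L.filter fun x => ¬ x = a := hR.listFilter
  refine Primrec.option_map (f := fun q : List ℕ × ℕ => (q.1.filter fun x => ¬ x = q.2).head?)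
    (Primrec.list_head?.comp h1) ?_
  exact Primrec.pair (Primrec.snd.comp Primrec.fst) Primrec.snd

theorem primrec_used : Primrec used := by
  unfold used
  refine Primrec.list_flatMap Primrec.id ?_
  exact Primrec.list_cons.comp (Primrec.fst.comp Primrec.snd)
    (Primrec.list_cons.comp (Primrec.snd.comp Primrec.snd) (Primrec.const []))

theorem primrec_cand : Primrec fun q : (ℕ × ℕ × ℕ) × List (ℕ × ℕ) × ℕ =>
    cand q.2.2 q.1.1 q.1.2.1 q.1.2.2 q.2.1 := by
  have hR : PrimrecRel fun (w : ℕ) (q : (ℕ × ℕ × ℕ) × List (ℕ × ℕ) × ℕ) =>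
      th q.2.2 q.1.1 q.1.2.1 q.1.2.2 w :=
    primrecPred_th (Primrec.snd.comp (Primrec.snd.comp Primrec.snd))
      (Primrec.fst.comp (Primrec.fst.comp Primrec.snd))
      (Primrec.fst.comp (Primrec.snd.comp (Primrec.fst.comp Primrec.snd)))
      (Primrec.snd.comp (Primrec.snd.comp (Primrec.fst.comp Primrec.snd))) Primrec.fst
  have h1 : Primrec fun q : (ℕ × ℕ × ℕ) × List (ℕ × ℕ) × ℕ =>
      (List.range q.1.1).filter fun w => th q.2.2 q.1.1 q.1.2.1 q.1.2.2 w :=
    (hR.listFilter).comp (Primrec.list_range.comp (Primrec.fst.comp Primrec.fst)) Primrec.id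
  have h2 : Primrec fun q : (ℕ × ℕ × ℕ) × List (ℕ × ℕ) × ℕ =>
      app q.2.2 q.1.1 q.1.2.1 q.1.2.2 q.1.1 :=
    Primrec.list_map h1 (Primrec.fst.comp (Primrec.unpair.comp Primrec.snd))
  have hR' : PrimrecRel fun (x : ℕ) (l : List ℕ) => ¬ x ∈ l := by
    have h3 : PrimrecRel fun (l : List ℕ) (x : ℕ) => ∃ a ∈ l, a = x :=
      PrimrecRel.exists_mem_list Primrec.eq
    refine PrimrecRel.not ?_
    have h4 : PrimrecRel fun (x : ℕ) (l : List ℕ) => ∃ a ∈ l, a = x :=
      h3.comp Primrec.snd Primrec.fst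
    exact h4.of_eq (by simp)
  exact hR'.listFilter.comp h2 (primrec_used.comp (Primrec.fst.comp Primrec.snd))

theorem primrec_stage : Primrec fun q : ℕ × ℕ × ℕ => stage q.1 q.2.1 q.2.2 q.1 := by
  unfold stage
  refine Primrec.list_foldl (f := fun q : ℕ × ℕ × ℕ => List.range q.1) (g := fun _ => [])
    (h := fun q s => step q.1 q.2.1 q.2.2 s.1 s.2) (Primrec.list_range.comp Primrec.fst)
    (Primrec.const []) ?_
  unfold step
  exact Primrec.list_append.comp (Primrec.fst.comp Primrec.snd)
    (Primrec.optionToList.comp (primrec_pick.comp primrec_cand))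

theorem primrec_rep : Primrec fun q : (ℕ × ℕ × ℕ) × ℕ => rep q.1.1 q.1.2.1 q.1.2.2 q.2 := by
  have hR : PrimrecRel fun (p : ℕ × ℕ) (x : ℕ) => p.1 = x ∨ p.2 = x :=
    PrimrecPred.or (Primrec.eq.comp (Primrec.fst.comp Primrec.fst) Primrec.snd)
      (Primrec.eq.comp (Primrec.snd.comp Primrec.fst) Primrec.snd)
  have h1 : Primrec fun q : (ℕ × ℕ × ℕ) × ℕ => stage q.1.1 q.1.2.1 q.1.2.2 q.1.1 :=
    primrec_stage.comp Primrec.fst
  have h2 : Primrec fun q : (ℕ × ℕ × ℕ) × ℕ =>
      (stage q.1.1 q.1.2.1 q.1.2.2 q.1.1).filter fun p => p.1 = q.2 ∨ p.2 = q.2 :=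
    hR.listFilter.comp h1 Primrec.snd
  have h3 := Primrec.list_head?.comp h2
  have h4 : Primrec fun q : (ℕ × ℕ × ℕ) × ℕ =>
      (((stage q.1.1 q.1.2.1 q.1.2.2 q.1.1).filter fun p => p.1 = q.2 ∨ p.2 = q.2).head?).map
        Prod.fst :=
    Primrec.option_map h3 (Primrec.fst.comp Primrec.snd)
  exact Primrec.option_getD.comp h4 Primrec.snd

theorem computable_col {A : ℕ × ℕ → Bool} (hA : Computable A) : Computable (col A) := by
  have h1 : Computable fun t : ℕ × ℕ × ℕ => mt A t.2.1 t.2.2 :=
    (computable_mt hA).comp Computable.snd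
  have h2 : Computable fun t : ℕ × ℕ × ℕ => ((mt A t.2.1 t.2.2, t.2), t.1) :=
    Computable.pair (Computable.pair h1 Computable.snd) Computable.fst
  have h3 : Computable fun q : (ℕ × ℕ × ℕ) × ℕ => rep q.1.1 q.1.2.1 q.1.2.2 q.2 :=
    primrec_rep.to_comp
  have h4 : Computable fun t : ℕ × ℕ × ℕ => rep (mt A t.2.1 t.2.2) t.2.1 t.2.2 t.1 :=
    Computable.comp (f := fun q : (ℕ × ℕ × ℕ) × ℕ => rep q.1.1 q.1.2.1 q.1.2.2 q.2)
      (g := fun t : ℕ × ℕ × ℕ => ((mt A t.2.1 t.2.2, t.2), t.1)) h3 h2
  have h5 : Computable fun t : ℕ × ℕ × ℕ => Nat.pair t.2.1 t.2.2 :=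
    (Primrec₂.natPair.comp (Primrec.fst.comp Primrec.snd)
      (Primrec.snd.comp Primrec.snd)).to_comp
  exact Computable₂.comp (f := Nat.pair) Primrec₂.natPair.to_comp h4 h5

end Pool.Agent.Helper52K9.RR
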