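import Mathlib

/-!
Rado graphs, copies of three-vertex graphs and the combinatorial lemma on the first vertex which
distinguishes two vertices.
-/

set_option autoImplicit false

namespace Pool.Agent.Helper52K9.RR

/-- The subgraph of `R` induced on `X` has the extension property, that is, it is a Rado graph:
for disjoint finite sets `U, V` of vertices in `X` there is a further vertex `z` in `X` which is
adjacent to all vertices in `U` and to no vertex in `V`. -/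
def IsRado (R : SimpleGraph ℕ) (X : Set ℕ) : Prop :=
  ∀ U V : Finset ℕ, (U : Set ℕ) ⊆ X → (V : Set ℕ) ⊆ X → Disjoint U V →
    ∃ z ∈ X, z ∉ U ∧ z ∉ V ∧ (∀ u ∈ U, R.Adj z u) ∧ ∀ v ∈ V, ¬ R.Adj z v

/-- The triple `t` is increasing and its entries induce a copy of `G` in `R`. -/
def IsCopy (R : SimpleGraph ℕ) (G : SimpleGraph (Fin 3)) (t : ℕ × ℕ × ℕ) : Prop :=
  t.1 < t.2.1 ∧ t.2.1 < t.2.2 ∧ Nonempty (G ≃g R.induce {t.1, t.2.1, t.2.2})

/-- `X` is a `Σ⁰₄` set. -/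
def IsSigmaFour (X : Set ℕ) : Prop :=
  ∃ P : ℕ × ℕ × ℕ × ℕ × ℕ → Prop, ComputablePred P ∧
    ∀ x, x ∈ X ↔ ∃ a, ∀ b, ∃ c, ∀ d, P (x, a, b, c, d)

/-! ### copies -/

theorem copy_of_adj {R : SimpleGraph ℕ} {G : SimpleGraph (Fin 3)} {x y z : ℕ} (hxy : x < y)
    (hyz : y < z) (σ : Equiv.Perm (Fin 3)) (h01 : G.Adj (σ 0) (σ 1) ↔ R.Adj x y)
    (h02 : G.Adj (σ 0) (σ 2) ↔ R.Adj x z) (h12 : G.Adj (σ 1) (σ 2) ↔ R.Adj y z) :
    IsCopy R G (x, y, z) := by
  refine ⟨hxy, hyz, ?_⟩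
  let f : Fin 3 → ({x, y, z} : Set ℕ) := ![⟨x, by simp⟩, ⟨y, by simp⟩, ⟨z, by simp⟩]
  have hf : Function.Bijective f := by
    constructor
    · intro i j hij
      fin_cases i <;> fin_cases j <;> simp [f] at hij ⊢ <;> omega
    · rintro ⟨v, hv⟩
      simp only [Set.mem_insert_iff, Set.mem_singleton_iff] at hv
      rcases hv with rfl | rfl | rfl
      · exact ⟨0, rfl⟩
      · exact ⟨1, rfl⟩
      · exact ⟨2, rfl⟩
  refine ⟨⟨(σ.symm).trans (Equiv.ofBijective f hf), ?_⟩⟩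
  intro a b
  obtain ⟨i, rfl⟩ := σ.surjective a
  obtain ⟨j, rfl⟩ := σ.surjective b
  simp only [Equiv.trans_apply, Equiv.symm_apply_apply, Equiv.ofBijective_apply,
    SimpleGraph.comap_adj]
  fin_cases i <;> fin_cases j <;>
    simp [f, h01, h02, h12, G.adj_comm (σ 1) (σ 0), G.adj_comm (σ 2) (σ 0),
      G.adj_comm (σ 2) (σ 1), R.adj_comm]

/-- in every graph with three vertices some vertex has the same relation to the other two -/
theorem exists_pattern (G : SimpleGraph (Fin 3)) :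
    ∃ a b : Prop, ∀ (R : SimpleGraph ℕ) (x y z : ℕ), x < y → y < z → (R.Adj x y ↔ a) →
      (R.Adj x z ↔ a) → (R.Adj y z ↔ b) → IsCopy R G (x, y, z) := by
  have h : ∃ σ : Equiv.Perm (Fin 3), (G.Adj (σ 0) (σ 1) ↔ G.Adj (σ 0) (σ 2)) := by
    by_cases h1 : G.Adj 0 1 <;> by_cases h2 : G.Adj 0 2 <;> by_cases h3 : G.Adj 1 2
    · exact ⟨Equiv.refl _, by simp [h1, h2]⟩
    · exact ⟨Equiv.refl _, by simp [h1, h2]⟩
    · refine ⟨Equiv.swap 0 1, ?_⟩
      simp [Equiv.swap_apply_def, G.adj_comm 1 0, h1, h3]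
    · refine ⟨Equiv.swap 0 2, ?_⟩
      simp [Equiv.swap_apply_def, G.adj_comm 2 0, G.adj_comm 2 1, h2, h3]
    · refine ⟨Equiv.swap 0 2, ?_⟩
      simp [Equiv.swap_apply_def, G.adj_comm 2 0, G.adj_comm 2 1, h2, h3]
    · refine ⟨Equiv.swap 0 1, ?_⟩
      simp [Equiv.swap_apply_def, G.adj_comm 1 0, h1, h3]
    · exact ⟨Equiv.refl _, by simp [h1, h2]⟩
    · exact ⟨Equiv.refl _, by simp [h1, h2]⟩
  obtain ⟨σ, hσ⟩ := h
  refine ⟨G.Adj (σ 0) (σ 1), G.Adj (σ 1) (σ 2), fun R x y z hxy hyz h1 h2 h3 => ?_⟩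
  exact copy_of_adj hxy hyz σ h1.symm (hσ.symm.trans h2.symm) h3.symm

/-! ### conditions -/

section cond

variable (R : SimpleGraph ℕ) (X : Set ℕ)

/-- `v` realises the condition `(U, V)` -/
def Real (p : Finset ℕ × Finset ℕ) (v : ℕ) : Prop :=
  v ∈ X ∧ v ∉ p.1 ∧ v ∉ p.2 ∧ (∀ u ∈ p.1, R.Adj v u) ∧ ∀ u ∈ p.2, ¬ R.Adj v u

/-- conditions -/
def Cd (p : Finset ℕ × Finset ℕ) : Prop :=
  (p.1 : Set ℕ) ⊆ X ∧ (p.2 : Set ℕ) ⊆ X ∧ Disjoint p.1 p.2

/-- `S` is dense below `p` -/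
def Dense (S : Set ℕ) (p : Finset ℕ × Finset ℕ) : Prop :=
  ∀ q, Cd X q → p.1 ⊆ q.1 → p.2 ⊆ q.2 → ∃ v ∈ S, Real R X q v

variable {R X}

theorem Real.mono {p q : Finset ℕ × Finset ℕ} {v : ℕ} (h1 : p.1 ⊆ q.1) (h2 : p.2 ⊆ q.2)
    (h : Real R X q v) : Real R X p v :=
  ⟨h.1, fun hv => h.2.1 (h1 hv), fun hv => h.2.2.1 (h2 hv), fun u hu => h.2.2.2.1 u (h1 hu),
    fun u hu => h.2.2.2.2 u (h2 hu)⟩

theorem Dense.mono {S : Set ℕ} {p q : Finset ℕ × Finset ℕ} (h1 : p.1 ⊆ q.1) (h2 : p.2 ⊆ q.2)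
    (h : Dense R X S p) : Dense R X S q :=
  fun r hr h3 h4 => h r hr (h1.trans h3) (h2.trans h4)

open scoped Classical in
theorem Dense.large {S : Set ℕ} {p : Finset ℕ × Finset ℕ} (hp : Cd X p) (h : Dense R X S p)
    (n : ℕ) : ∃ v ∈ S, Real R X p v ∧ n ≤ v := by
  have hq : Cd X (p.1, p.2 ∪ ((Finset.range n).filter fun v => v ∈ X ∧ v ∉ p.1)) := by
    refine ⟨hp.1, ?_, ?_⟩
    · intro v hv
      simp only [Finset.coe_union, Set.mem_union, Finset.mem_coe, Finset.mem_filter] at hv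
      rcases hv with hv | hv
      · exact hp.2.1 hv
      · exact hv.2.1
    · rw [Finset.disjoint_union_right]
      refine ⟨hp.2.2, ?_⟩
      rw [Finset.disjoint_left]
      intro v hv hv'
      simp only [Finset.mem_filter] at hv'
      exact hv'.2.2 hv
  obtain ⟨v, hv, hr⟩ := h _ hq subset_rfl (by exact Finset.subset_union_left)
  refine ⟨v, hv, Real.mono (p := p) (by exact subset_rfl)
    (by exact Finset.subset_union_left) hr, ?_⟩
  by_contra hn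
  have h1 := hr.2.1
  have h2 := hr.2.2.1
  simp only [Finset.mem_union, Finset.mem_filter, Finset.mem_range, not_or, not_and] at h1 h2
  exact h2.2 (by omega) hr.1 h1

theorem Dense.split {S T : Set ℕ} {p : Finset ℕ × Finset ℕ} (hp : Cd X p)
    (h : Dense R X S p) : ∃ q, Cd X q ∧ p.1 ⊆ q.1 ∧ p.2 ⊆ q.2 ∧
      (Dense R X (S ∩ T) q ∨ Dense R X (S \ T) q) := by
  by_cases h1 : Dense R X (S ∩ T) p
  · exact ⟨p, hp, subset_rfl, subset_rfl, Or.inl h1⟩
  · unfold Dense at h1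
    push Not at h1
    obtain ⟨q, hq, hq1, hq2, hno⟩ := h1
    refine ⟨q, hq, hq1, hq2, Or.inr fun r hr h3 h4 => ?_⟩
    obtain ⟨v, hv, hvr⟩ := h r hr (hq1.trans h3) (hq2.trans h4)
    refine ⟨v, ⟨hv, fun hvT => ?_⟩, hvr⟩
    exact hno v ⟨hv, hvT⟩ (hvr.mono h3 h4)

/-- the vertices in `S` which have the pattern `σ` on the vertices below `n` -/
def Pat (R : SimpleGraph ℕ) (S : Set ℕ) (σ : ℕ → Prop) (n : ℕ) : Set ℕ :=
  {v | v ∈ S ∧ ∀ i < n, (R.Adj v i ↔ σ i)}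

theorem Dense.pattern {S : Set ℕ} {p : Finset ℕ × Finset ℕ} (hp : Cd X p)
    (h : Dense R X S p) (n : ℕ) : ∃ q, Cd X q ∧ p.1 ⊆ q.1 ∧ p.2 ⊆ q.2 ∧
      ∃ σ : ℕ → Prop, Dense R X (Pat R S σ n) q := by
  induction n with
  | zero =>
    refine ⟨p, hp, subset_rfl, subset_rfl, fun _ => True, ?_⟩
    have : Pat R S (fun _ => True) 0 = S := by
      ext v; simp [Pat]
    rw [this]; exact h
  | succ n ih =>
    obtain ⟨q, hq, hq1, hq2, σ, hσ⟩ := ih
    obtain ⟨r, hr, hr1, hr2, h3⟩ := Dense.split (T := {v | R.Adj v n}) hq hσ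
    have hext : ∀ (b : Prop) (v : ℕ), v ∈ Pat R S σ n → (R.Adj v n ↔ b) →
        v ∈ Pat R S (fun i => if i = n then b else σ i) (n + 1) := by
      intro b v hv hb
      refine ⟨hv.1, fun i hi => ?_⟩
      by_cases h : i = n
      · subst h; simpa using hb
      · simpa [h] using hv.2 i (by omega)
    rcases h3 with h3 | h3
    · refine ⟨r, hr, hq1.trans hr1, hq2.trans hr2, fun i => if i = n then True else σ i, ?_⟩
      intro r' hr' h4 h5
      obtain ⟨v, ⟨hv, hvT⟩, hvr⟩ := h3 r' hr' h4 h5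
      exact ⟨v, hext True v hv (by simpa using hvT), hvr⟩
    · refine ⟨r, hr, hq1.trans hr1, hq2.trans hr2, fun i => if i = n then False else σ i, ?_⟩
      intro r' hr' h4 h5
      obtain ⟨v, ⟨hv, hvT⟩, hvr⟩ := h3 r' hr' h4 h5
      exact ⟨v, hext False v hv (by simpa using hvT), hvr⟩

theorem dense_univ (hX : IsRado R X) {p : Finset ℕ × Finset ℕ} : Dense R X X p := by
  intro q hq _ _
  obtain ⟨z, hz, h1, h2, h3, h4⟩ := hX q.1 q.2 hq.1 hq.2.1 hq.2.2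
  exact ⟨z, hz, hz, h1, h2, h3, h4⟩

open scoped Classical in
/-- adding a vertex to a condition -/
theorem Cd.add {p : Finset ℕ × Finset ℕ} (hp : Cd X p) {v : ℕ} (hv : v ∈ X) (h1 : v ∉ p.1)
    (h2 : v ∉ p.2) (b : Prop) : ∃ q, Cd X q ∧ p.1 ⊆ q.1 ∧ p.2 ⊆ q.2 ∧
      ∀ w, Real R X q w → (R.Adj w v ↔ b) := by
  by_cases hb : b
  · refine ⟨(insert v p.1, p.2), ⟨?_, hp.2.1, ?_⟩, Finset.subset_insert _ _, subset_rfl, ?_⟩
    · intro w hw
      simp only [Finset.coe_insert, Set.mem_insert_iff, Finset.mem_coe] at hw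
      rcases hw with rfl | hw
      · exact hv
      · exact hp.1 hw
    · rw [Finset.disjoint_insert_left]
      exact ⟨h2, hp.2.2⟩
    · intro w hw
      simp only [hb, iff_true]
      exact hw.2.2.2.1 v (Finset.mem_insert_self _ _)
  · refine ⟨(p.1, insert v p.2), ⟨hp.1, ?_, ?_⟩, subset_rfl, Finset.subset_insert _ _, ?_⟩
    · intro w hw
      simp only [Finset.coe_insert, Set.mem_insert_iff, Finset.mem_coe] at hw
      rcases hw with rfl | hw
      · exact hv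
      · exact hp.2.1 hw
    · rw [Finset.disjoint_insert_right]
      exact ⟨h1, hp.2.2⟩
    · intro w hw
      simp only [hb, iff_false]
      exact hw.2.2.2.2 v (Finset.mem_insert_self _ _)

/-- The main lemma. -/
theorem exists_pair (hX : IsRado R X) {D : Finset ℕ} (hD : (D : Set ℕ) ⊆ X) (a b : Prop)
    (Q : ℕ → ℕ → ℕ → Prop)
    (hQ : ∃ m₀, ∀ m ≥ m₀, ∃ y₀, ∀ y ≥ y₀, ∃ z₀, ∀ z ≥ z₀, Q m y z) :
    ∃ m y z, y ∈ X ∧ z ∈ X ∧ m < y ∧ y < z ∧ Q m y z ∧ (∀ j < m, (R.Adj y j ↔ R.Adj z j)) ∧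
      ¬ (R.Adj y m ↔ R.Adj z m) ∧ (∀ x ∈ D, (R.Adj y x ↔ a)) ∧ (∀ x ∈ D, (R.Adj z x ↔ a)) ∧
      (R.Adj z y ↔ b) := by
  classical
  obtain ⟨m₀, hm₀⟩ := hQ
  -- the first condition
  obtain ⟨p, hp, hpD⟩ : ∃ p, Cd X p ∧ ∀ v, Real R X p v → ∀ x ∈ D, (R.Adj v x ↔ a) := by
    by_cases ha : a
    · refine ⟨(D, ∅), ⟨hD, by simp, by simp⟩, fun v hv x hx => ?_⟩
      simp only [ha, iff_true]
      exact hv.2.2.2.1 x hx
    · refine ⟨(∅, D), ⟨by simp, hD, by simp⟩, fun v hv x hx => ?_⟩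
      simp only [ha, iff_false]
      exact hv.2.2.2.2 x hx
  obtain ⟨q, hq, hpq1, hpq2, σ, hσ⟩ := Dense.pattern hp (dense_univ hX) m₀
  obtain ⟨i, hi, hir, hile⟩ := hσ.large hq m₀
  obtain ⟨r0, hr0, hqr01, hqr02, hr0v⟩ := hq.add (R := R) hir.1 hir.2.1 hir.2.2.1 False
  obtain ⟨r1, hr1, hqr11, hqr12, hr1v⟩ := hq.add (R := R) hir.1 hir.2.1 hir.2.2.1 True
  obtain ⟨s0, hs0, hrs01, hrs02, σ0, hσ0⟩ := Dense.pattern hr0 (hσ.mono hqr01 hqr02) i
  obtain ⟨s1, hs1, hrs11, hrs12, σ1, hσ1⟩ := Dense.pattern hr1 (hσ.mono hqr11 hqr12) i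
  -- the first difference
  have hex : ∃ m, m = i ∨ ¬ (σ0 m ↔ σ1 m) := ⟨i, Or.inl rfl⟩
  set m := Nat.find hex with hm
  have hmi : m ≤ i := Nat.find_min' hex (Or.inl rfl)
  have hmlt : ∀ j < m, (σ0 j ↔ σ1 j) := by
    intro j hj
    have := Nat.find_min hex hj
    push Not at this
    tauto
  -- facts on the members
  have hA0 : ∀ v, v ∈ Pat R (Pat R X σ m₀) σ0 i → Real R X s0 v → ∀ j < i,
      (R.Adj v j ↔ σ0 j) := fun v hv _ j hj => hv.2 j hj
  have hmm : m₀ ≤ m := by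
    by_contra hlt
    push Not at hlt
    obtain ⟨v, hv, -⟩ := hσ0 s0 hs0 subset_rfl subset_rfl
    obtain ⟨w, hw, -⟩ := hσ1 s1 hs1 subset_rfl subset_rfl
    have h1 := hv.1.2 m hlt
    have h2 := hw.1.2 m hlt
    have h3 := hv.2 m (by omega)
    have h4 := hw.2 m (by omega)
    have h5 := Nat.find_spec hex
    rw [← hm] at h5
    rcases h5 with h5 | h5
    · omega
    · apply h5
      rw [← h3, ← h4, h1, h2]
  obtain ⟨y₀, hy₀⟩ := hm₀ m hmm
  obtain ⟨y, hy, hyr, hyle⟩ := hσ0.large hs0 (max y₀ (max (i + 1) (s1.1.sup id + s1.2.sup id + 1)))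
  have hyi : i < y := by
    have := le_max_left (i + 1) (s1.1.sup id + s1.2.sup id + 1)
    have := le_max_right y₀ (max (i + 1) (s1.1.sup id + s1.2.sup id + 1))
    omega
  have hys : s1.1.sup id + s1.2.sup id + 1 ≤ y := by
    have := le_max_right (i + 1) (s1.1.sup id + s1.2.sup id + 1)
    have := le_max_right y₀ (max (i + 1) (s1.1.sup id + s1.2.sup id + 1))
    omega
  have hy1 : y ∉ s1.1 := fun h => by
    have := Finset.le_sup (f := id) h
    simp only [id] at this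
    omega
  have hy2 : y ∉ s1.2 := fun h => by
    have := Finset.le_sup (f := id) h
    simp only [id] at this
    omega
  obtain ⟨t, ht, hst1, hst2, htv⟩ := hs1.add (R := R) hyr.1 hy1 hy2 b
  obtain ⟨z₀, hz₀⟩ := hy₀ y (le_trans (le_max_left _ _) hyle)
  obtain ⟨z, hz, hzr, hzle⟩ := (hσ1.mono hst1 hst2).large ht (max z₀ (y + 1))
  have hyz : y < z := by
    have := le_max_right z₀ (y + 1)
    omega
  have hzs1 : Real R X s1 z := hzr.mono hst1 hst2
  have hzq : Real R X q z := hzs1.mono (hqr11.trans hrs11) (hqr12.trans hrs12)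
  have hyq : Real R X q y := hyr.mono (hqr01.trans hrs01) (hqr02.trans hrs02)
  refine ⟨m, y, z, hyr.1, hzr.1, by omega, hyz, hz₀ z (le_trans (le_max_left _ _) hzle), ?_, ?_,
    hpD y (hyq.mono hpq1 hpq2), hpD z (hzq.mono hpq1 hpq2), htv z hzr⟩
  · intro j hj
    rw [hy.2 j (by omega), hz.2 j (by omega)]
    exact hmlt j hj
  · by_cases hmi' : m = i
    · have h1 := hr0v y (hyr.mono hrs01 hrs02)
      have h2 := hr1v z (hzs1.mono hrs11 hrs12)
      rw [hmi']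
      tauto
    · have h5 := Nat.find_spec hex
      rw [← hm] at h5
      rw [hy.2 m (by omega), hz.2 m (by omega)]
      tauto

end cond

end Pool.Agent.Helper52K9.RR
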