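import Pool.Agent.Helper52K9.RR.Comb

/-!
Computable approximations: the meet level of two vertices, and the triple limit approximation of a
`Π⁰₃` matrix.
-/

set_option autoImplicit false

open Filter
open Nat.Partrec (Code)
open Nat.Partrec.Code (evaln)

namespace Pool.Agent.Helper52K9.RR

/-! ### the meet level -/

/-- the least `i < n` with `A y i ≠ A z i`, and `n` if there is none -/
def mtg (A : ℕ × ℕ → Bool) (y z : ℕ) : ℕ → ℕ
  | 0 => 0
  | n + 1 => if mtg A y z n < n ∨ A (y, n) ≠ A (z, n) then mtg A y z n else n + 1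

/-- the least `i < y` with `A y i ≠ A z i`, and `y` if there is none -/
def mt (A : ℕ × ℕ → Bool) (y z : ℕ) : ℕ := mtg A y z y

theorem mtg_eq_self {A : ℕ × ℕ → Bool} {y z : ℕ} :
    ∀ n, (∀ j < n, A (y, j) = A (z, j)) → mtg A y z n = n
  | 0, _ => rfl
  | n + 1, h => by
    have ih := mtg_eq_self n fun j hj => h j (by omega)
    rw [mtg, if_neg]
    rw [ih]
    push Not
    exact ⟨le_rfl, h n (by omega)⟩

theorem mtg_eq {A : ℕ × ℕ → Bool} {y z i : ℕ} (h : ∀ j < i, A (y, j) = A (z, j))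
    (hi : A (y, i) ≠ A (z, i)) : ∀ n, i < n → mtg A y z n = i
  | 0, h => by omega
  | n + 1, hn => by
    rcases Nat.lt_or_ge i n with h1 | h1
    · have ih := mtg_eq h hi n h1
      rw [mtg, if_pos (by rw [ih]; exact Or.inl h1), ih]
    · have h2 : i = n := by omega
      subst h2
      rw [mtg, if_pos (Or.inr hi), mtg_eq_self i h]

theorem mt_eq {A : ℕ × ℕ → Bool} {y z i : ℕ} (h : ∀ j < i, A (y, j) = A (z, j))
    (hi : A (y, i) ≠ A (z, i)) (hy : i < y) : mt A y z = i := mtg_eq h hi y hy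

theorem computable_mt {A : ℕ × ℕ → Bool} (hA : Computable A) :
    Computable fun p : ℕ × ℕ => mt A p.1 p.2 := by
  have h : Computable fun p : ℕ × ℕ => Nat.rec (motive := fun _ => ℕ) 0
      (fun n g => if g < n ∨ A (p.1, n) ≠ A (p.2, n) then g else n + 1) p.1 := by
    refine Computable.nat_rec Computable.fst (Computable.const 0) (h := fun p q =>
      if q.2 < q.1 ∨ A (p.1, q.1) ≠ A (p.2, q.1) then q.2 else q.1 + 1) ?_
    have e : (fun (p : ℕ × ℕ) (q : ℕ × ℕ) =>
        if q.2 < q.1 ∨ A (p.1, q.1) ≠ A (p.2, q.1) then q.2 else q.1 + 1) =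
        fun (p : ℕ × ℕ) (q : ℕ × ℕ) => bif (decide (q.2 < q.1)) || (xor (A (p.1, q.1))
          (A (p.2, q.1))) then q.2 else q.1 + 1 := by
      funext p q
      by_cases h1 : q.2 < q.1
      · simp [h1]
      · cases h2 : A (p.1, q.1) <;> cases h3 : A (p.2, q.1) <;> simp [h1]
    rw [e]
    refine Computable.cond ?_ ?_ ?_
    · have h1 : Computable fun x : (ℕ × ℕ) × (ℕ × ℕ) => decide (x.2.2 < x.2.1) :=
        (PrimrecRel.comp Primrec.nat_lt (Primrec.snd.comp Primrec.snd)
          (Primrec.fst.comp Primrec.snd)).decide.to_comp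
      have h2 : Computable fun x : (ℕ × ℕ) × (ℕ × ℕ) => A (x.1.1, x.2.1) :=
        hA.comp (Computable.pair (Computable.fst.comp Computable.fst)
          (Computable.fst.comp Computable.snd))
      have h3 : Computable fun x : (ℕ × ℕ) × (ℕ × ℕ) => A (x.1.2, x.2.1) :=
        hA.comp (Computable.pair (Computable.snd.comp Computable.fst)
          (Computable.fst.comp Computable.snd))
      exact (Primrec.or.to_comp).comp h1 (((Primrec.dom_bool₂ xor).to_comp).comp h2 h3)
    · exact Computable.snd.comp Computable.snd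
    · exact Computable.succ.comp (Computable.fst.comp Computable.snd)
  refine h.of_eq fun p => ?_
  obtain ⟨y, z⟩ := p
  simp only [mt]
  have : ∀ n, Nat.rec (motive := fun _ => ℕ) 0
      (fun n g => if g < n ∨ A (y, n) ≠ A (z, n) then g else n + 1) n = mtg A y z n := by
    intro n
    induction n with
    | zero => rfl
    | succ n ih => simp only [ih]; rfl
  exact this y

/-! ### the approximation -/

/-- the computation of the `e`-th program on input `n` halts before stage `z` with output `0` -/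
def bad (e z n : ℕ) : Prop := evaln z (Denumerable.ofNat Code e) n = some 0

instance (e z n : ℕ) : Decidable (bad e z n) := by unfold bad; infer_instance

/-- the input of the `e`-th program for the tuple `(x, a, b, q, d)` where `w` codes `(x, a)` -/
def inp (w b q d : ℕ) : ℕ := Nat.pair w.unpair.1 (Nat.pair w.unpair.2 (Nat.pair b (Nat.pair q d)))

/-- the approximation of `∀ b, ∃ q, ∀ d, P (w.1, w.2, b, q, d)` with the three bounds -/
def th (e m y z w : ℕ) : Prop := ∀ b < m, ∃ q < y, ∀ d < z, ¬ bad e z (inp w b q d)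

instance (e m y z w : ℕ) : Decidable (th e m y z w) := by unfold th; infer_instance

theorem primrec_inp : Primrec fun p : ((ℕ × ℕ) × ℕ) × ℕ => inp p.1.1.1 p.1.1.2 p.1.2 p.2 := by
  unfold inp
  refine Primrec₂.natPair.comp ?_ (Primrec₂.natPair.comp ?_ (Primrec₂.natPair.comp ?_
    (Primrec₂.natPair.comp ?_ ?_)))
  · exact Primrec.fst.comp (Primrec.unpair.comp (Primrec.fst.comp (Primrec.fst.comp Primrec.fst)))
  · exact Primrec.snd.comp (Primrec.unpair.comp (Primrec.fst.comp (Primrec.fst.comp Primrec.fst)))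
  · exact Primrec.snd.comp (Primrec.fst.comp Primrec.fst)
  · exact Primrec.snd.comp Primrec.fst
  · exact Primrec.snd

theorem primrecPred_bad {α : Type*} [Primcodable α] {e z n : α → ℕ} (he : Primrec e)
    (hz : Primrec z) (hn : Primrec n) : PrimrecPred fun a => bad (e a) (z a) (n a) := by
  unfold bad
  refine PrimrecRel.comp Primrec.eq ?_ (Primrec.const _)
  have h := Nat.Partrec.Code.primrec_evaln
  exact h.comp (Primrec.pair (Primrec.pair hz ((Primrec.ofNat Code).comp he)) hn)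

/-- bounded quantification over a natural number in a primitive recursive predicate -/
theorem forall_lt_prim {α : Type*} [Primcodable α] {p : α → ℕ → Prop} {f : α → ℕ}
    (hp : PrimrecPred fun x : α × ℕ => p x.1 x.2) (hf : Primrec f) :
    PrimrecPred fun a => ∀ b < f a, p a b := by
  have h1 : PrimrecRel fun (b : ℕ) (a : α) => p a b := by
    exact hp.comp (Primrec.pair Primrec.snd Primrec.fst)
  have h2 := h1.forall_mem_list
  have h3 : PrimrecPred fun a : α => ∀ b ∈ List.range (f a), p a b :=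
    h2.comp (Primrec.list_range.comp hf) Primrec.id
  exact h3.of_eq (by simp)

theorem exists_lt_prim {α : Type*} [Primcodable α] {p : α → ℕ → Prop} {f : α → ℕ}
    (hp : PrimrecPred fun x : α × ℕ => p x.1 x.2) (hf : Primrec f) :
    PrimrecPred fun a => ∃ b < f a, p a b := by
  have h1 : PrimrecRel fun (b : ℕ) (a : α) => p a b := by
    exact hp.comp (Primrec.pair Primrec.snd Primrec.fst)
  have h2 := h1.exists_mem_list
  have h3 : PrimrecPred fun a : α => ∃ b ∈ List.range (f a), p a b :=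
    h2.comp (Primrec.list_range.comp hf) Primrec.id
  exact h3.of_eq (by simp)

theorem primrecPred_th {α : Type*} [Primcodable α] {e m y z w : α → ℕ} (he : Primrec e)
    (hm : Primrec m) (hy : Primrec y) (hz : Primrec z) (hw : Primrec w) :
    PrimrecPred fun a => th (e a) (m a) (y a) (z a) (w a) := by
  have h4 : Primrec fun x : ((α × ℕ) × ℕ) × ℕ => x.1.1.1 :=
    Primrec.fst.comp (Primrec.fst.comp Primrec.fst)
  have h5 : Primrec fun x : ((α × ℕ) × ℕ) × ℕ => inp (w x.1.1.1) x.1.1.2 x.1.2 x.2 :=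
    primrec_inp.comp (Primrec.pair (Primrec.pair (Primrec.pair (hw.comp h4)
      (Primrec.snd.comp (Primrec.fst.comp Primrec.fst))) (Primrec.snd.comp Primrec.fst))
      Primrec.snd)
  have h1 : PrimrecPred fun x : ((α × ℕ) × ℕ) × ℕ =>
      ¬ bad (e x.1.1.1) (z x.1.1.1) (inp (w x.1.1.1) x.1.1.2 x.1.2 x.2) :=
    PrimrecPred.not (primrecPred_bad (he.comp h4) (hz.comp h4) h5)
  have h2 : PrimrecPred fun x : (α × ℕ) × ℕ => ∀ d < z x.1.1,
      ¬ bad (e x.1.1) (z x.1.1) (inp (w x.1.1) x.1.2 x.2 d) :=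
    forall_lt_prim (p := fun (x : (α × ℕ) × ℕ) (d : ℕ) =>
      ¬ bad (e x.1.1) (z x.1.1) (inp (w x.1.1) x.1.2 x.2 d)) (f := fun x => z x.1.1)
      h1 (hz.comp (Primrec.fst.comp Primrec.fst))
  have h3 : PrimrecPred fun x : α × ℕ => ∃ q < y x.1, ∀ d < z x.1,
      ¬ bad (e x.1) (z x.1) (inp (w x.1) x.2 q d) :=
    exists_lt_prim (p := fun (x : α × ℕ) (q : ℕ) => ∀ d < z x.1,
      ¬ bad (e x.1) (z x.1) (inp (w x.1) x.2 q d)) (f := fun x => y x.1)
      h2 (hy.comp Primrec.fst)
  exact forall_lt_prim (p := fun (x : α) (b : ℕ) => ∃ q < y x, ∀ d < z x,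
      ¬ bad (e x) (z x) (inp (w x) b q d)) (f := m) h3 hm

/-! ### the limit -/

/-- `e` is a program which decides `P` -/
def Dec (P : ℕ × ℕ × ℕ × ℕ × ℕ → Prop) (e : ℕ) : Prop :=
  ∀ w b q d, (¬ P (w.unpair.1, w.unpair.2, b, q, d) ↔ ∃ z, bad e z (inp w b q d))

/-- the matrix -/
def TH (P : ℕ × ℕ × ℕ × ℕ × ℕ → Prop) (w : ℕ) : Prop :=
  ∀ b, ∃ q, ∀ d, P (w.unpair.1, w.unpair.2, b, q, d)

theorem exists_dec {P : ℕ × ℕ × ℕ × ℕ × ℕ → Prop} (hP : ComputablePred P) : ∃ e, Dec P e := by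
  obtain ⟨hdec, hP⟩ := hP
  have h : Computable fun n : ℕ =>
      if P (Denumerable.ofNat (ℕ × ℕ × ℕ × ℕ × ℕ) n) then 1 else 0 := by
    have h1 : Computable fun n : ℕ =>
        bif decide (P (Denumerable.ofNat (ℕ × ℕ × ℕ × ℕ × ℕ) n)) then 1 else 0 :=
      Computable.cond (hP.comp (Computable.ofNat _)) (Computable.const 1) (Computable.const 0)
    refine h1.of_eq fun n => ?_
    by_cases h : P (Denumerable.ofNat (ℕ × ℕ × ℕ × ℕ × ℕ) n) <;> simp [h]
  obtain ⟨c, hc⟩ := Nat.Partrec.Code.exists_code.1 (Partrec.nat_iff.1 h.partrec)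
  refine ⟨Encodable.encode c, fun w b q d => ?_⟩
  have hin : Denumerable.ofNat (ℕ × ℕ × ℕ × ℕ × ℕ) (inp w b q d) =
      (w.unpair.1, w.unpair.2, b, q, d) := by
    simp [inp]
  simp only [bad, Denumerable.ofNat_encode]
  have hev : Nat.Partrec.Code.eval c (inp w b q d) =
      Part.some (if P (w.unpair.1, w.unpair.2, b, q, d) then 1 else 0) := by
    rw [hc]
    simp only [PFun.coe_val, hin]
  constructor
  · intro hn
    rw [if_neg hn] at hev
    have : (0 : ℕ) ∈ Nat.Partrec.Code.eval c (inp w b q d) := by rw [hev]; simp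
    obtain ⟨k, hk⟩ := Nat.Partrec.Code.evaln_complete.1 this
    exact ⟨k, by simpa using hk⟩
  · rintro ⟨z, hz⟩ hp
    rw [if_pos hp] at hev
    have : (0 : ℕ) ∈ Nat.Partrec.Code.eval c (inp w b q d) :=
      Nat.Partrec.Code.evaln_sound (k := z) (by simpa using hz)
    rw [hev] at this
    simp at this

theorem bad_mono {e z z' n : ℕ} (h : z ≤ z') (hb : bad e z n) : bad e z' n := by
  unfold bad at *
  have := Nat.Partrec.Code.evaln_mono (c := Denumerable.ofNat Code e) (n := n) (x := 0) h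
  simpa using this (by simpa using hb)

theorem lim_one {P : ℕ × ℕ × ℕ × ℕ × ℕ → Prop} {e : ℕ} (he : Dec P e) (w b q : ℕ) :
    ∀ᶠ z in atTop, ((∀ d < z, ¬ bad e z (inp w b q d)) ↔
      ∀ d, P (w.unpair.1, w.unpair.2, b, q, d)) := by
  by_cases h : ∀ d, P (w.unpair.1, w.unpair.2, b, q, d)
  · filter_upwards with z
    refine ⟨fun _ => h, fun _ d _ hb => ?_⟩
    exact (he w b q d).2 ⟨z, hb⟩ (h d)
  · obtain ⟨d, hd⟩ := not_forall.1 h
    obtain ⟨z0, hz0⟩ := (he w b q d).1 hd
    filter_upwards [eventually_ge_atTop (max z0 (d + 1))] with z hz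
    refine ⟨fun h1 => absurd ?_ (h1 d (by omega)), fun h1 => absurd h1 h⟩
    exact bad_mono (by omega) hz0

theorem lim_two {P : ℕ × ℕ × ℕ × ℕ × ℕ → Prop} {e : ℕ} (he : Dec P e) (w b : ℕ) :
    ∀ᶠ y in atTop, ∀ᶠ z in atTop, ((∃ q < y, ∀ d < z, ¬ bad e z (inp w b q d)) ↔
      ∃ q, ∀ d, P (w.unpair.1, w.unpair.2, b, q, d)) := by
  have h0 : ∀ y : ℕ, ∀ᶠ z in atTop, ∀ q ∈ Finset.range y,
      ((∀ d < z, ¬ bad e z (inp w b q d)) ↔ ∀ d, P (w.unpair.1, w.unpair.2, b, q, d)) := by
    intro y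
    rw [eventually_all_finset]
    exact fun q _ => lim_one he w b q
  by_cases h : ∃ q, ∀ d, P (w.unpair.1, w.unpair.2, b, q, d)
  · obtain ⟨q, hq⟩ := h
    filter_upwards [eventually_ge_atTop (q + 1)] with y hy
    filter_upwards [h0 y] with z hz
    refine ⟨fun _ => ⟨q, hq⟩, fun _ => ⟨q, by omega, ?_⟩⟩
    exact (hz q (Finset.mem_range.2 (by omega))).2 hq
  · filter_upwards with y
    filter_upwards [h0 y] with z hz
    refine ⟨fun ⟨q, hq, h1⟩ => absurd ⟨q, ?_⟩ h, fun h1 => absurd h1 h⟩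
    exact (hz q (Finset.mem_range.2 hq)).1 h1

theorem lim_three {P : ℕ × ℕ × ℕ × ℕ × ℕ → Prop} {e : ℕ} (he : Dec P e) (w : ℕ) :
    ∀ᶠ m in atTop, ∀ᶠ y in atTop, ∀ᶠ z in atTop, (th e m y z w ↔ TH P w) := by
  have h0 : ∀ m : ℕ, ∀ᶠ y in atTop, ∀ᶠ z in atTop, ∀ b ∈ Finset.range m,
      ((∃ q < y, ∀ d < z, ¬ bad e z (inp w b q d)) ↔
      ∃ q, ∀ d, P (w.unpair.1, w.unpair.2, b, q, d)) := by
    intro m
    have : ∀ᶠ y in atTop, ∀ b ∈ Finset.range m, ∀ᶠ z in atTop,
        ((∃ q < y, ∀ d < z, ¬ bad e z (inp w b q d)) ↔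
        ∃ q, ∀ d, P (w.unpair.1, w.unpair.2, b, q, d)) := by
      rw [eventually_all_finset]
      exact fun b _ => lim_two he w b
    filter_upwards [this] with y hy
    rw [eventually_all_finset]
    exact hy
  by_cases h : TH P w
  · filter_upwards with m
    filter_upwards [h0 m] with y hy
    filter_upwards [hy] with z hz
    refine ⟨fun _ => h, fun _ b hb => ?_⟩
    exact (hz b (Finset.mem_range.2 hb)).2 (h b)
  · obtain ⟨b, hb⟩ := not_forall.1 h
    filter_upwards [eventually_ge_atTop (b + 1)] with m hm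
    filter_upwards [h0 m] with y hy
    filter_upwards [hy] with z hz
    refine ⟨fun h1 => absurd ?_ hb, fun h1 => absurd h1 h⟩
    exact (hz b (Finset.mem_range.2 (by omega))).1 (h1 b (by omega))

theorem lim_all {P : ℕ × ℕ × ℕ × ℕ × ℕ → Prop} {e : ℕ} (he : Dec P e) (W : ℕ) :
    ∀ᶠ m in atTop, ∀ᶠ y in atTop, ∀ᶠ z in atTop, ∀ w < W, (th e m y z w ↔ TH P w) := by
  have h : ∀ᶠ m in atTop, ∀ w ∈ Finset.range W, ∀ᶠ y in atTop, ∀ᶠ z in atTop,
      (th e m y z w ↔ TH P w) := by
    rw [eventually_all_finset]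
    exact fun w _ => lim_three he w
  filter_upwards [h] with m hm
  have h1 : ∀ᶠ y in atTop, ∀ w ∈ Finset.range W, ∀ᶠ z in atTop, (th e m y z w ↔ TH P w) := by
    rw [eventually_all_finset]
    exact hm
  filter_upwards [h1] with y hy
  have h2 : ∀ᶠ z in atTop, ∀ w ∈ Finset.range W, (th e m y z w ↔ TH P w) := by
    rw [eventually_all_finset]
    exact hy
  filter_upwards [h2] with z hz w hw
  exact hz w (Finset.mem_range.2 hw)

end Pool.Agent.Helper52K9.RR
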